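import Mathlib
import Pool.Agent.H53.BsC

namespace Pool.Agent.Results.MP_2cf87a_nt.Full

theorem result (s : ℝ) (hs0 : 0 < s) (hs1 : s < 1) :
    dimH {v : EuclideanSpace ℝ (Fin 2) | ∃ c : ℝ, 0 < c ∧ ∀ n : ℕ, 1 ≤ n →
      c ≤ (n : ℝ) * (min |(n : ℝ) * v 0 - round ((n : ℝ) * v 0)| |(n : ℝ) * v 1 - round ((n : ℝ) * v 1)|) ^ s *
        (max |(n : ℝ) * v 0 - round ((n : ℝ) * v 0)| |(n : ℝ) * v 1 - round ((n : ℝ) * v 1)|) ^ (2 - s)} = 2 := by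
  refine le_antisymm ((dimH_mono (Set.subset_univ _)).trans (by rw [Real.dimH_univ_eq_finrank]; simp)) ?_
  have hf : LipschitzWith 1 fun v : EuclideanSpace ℝ (Fin 2) => (v 0, v 1) :=
    LipschitzWith.mk_one fun v w => max_le (PiLp.dist_apply_le v w 0) (PiLp.dist_apply_le v w 1)
  refine (Pool.Agent.H53.Bs.low s hs0 hs1).trans ((dimH_mono fun z hz => ?_).trans (hf.dimH_image_le _))
  exact ⟨!₂[z.1, z.2], hz, rfl⟩

end Pool.Agent.Results.MP_2cf87a_nt.Full
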